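import Mathlib

/-!
# Decay of the beta integral on a vertical line
-/

set_option autoImplicit false
open MeasureTheory Complex Set

namespace Pool.Agent.H23.Cardy

/-- `B(z) = ∫_0^1 s^z (s(1-s))^(-2/3) ds` -/
noncomputable def BZ (z : ℂ) : ℂ := betaIntegral (z + 1/3) (1/3)

lemma BZ_gamma {z : ℂ} (hz : -1/3 < z.re) :
    BZ z = Gamma (z + 1/3) * Gamma (1/3) / Gamma (z + 2/3) := by
  have h1 : 0 < (z + 1/3).re := by
    have : (z + 1/3).re = z.re + 1/3 := by simp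
    rw [this]; linarith
  have h2 : 0 < (1/3 : ℂ).re := by norm_num
  have h3 := Gamma_mul_Gamma_eq_betaIntegral h1 h2
  have h4 : (z + 1/3) + 1/3 = z + 2/3 := by ring
  rw [h4] at h3
  have h5 : 0 < (z + 2/3).re := by
    have : (z + 2/3).re = z.re + 2/3 := by simp
    rw [this]; linarith
  rw [eq_div_iff (Gamma_ne_zero_of_re_pos h5), h3, BZ]
  ring

lemma continuous_BZ (σ : ℝ) (hσ : -1/3 < σ) : Continuous fun τ : ℝ => BZ (σ + τ * I) := by
  have h0 : ∀ τ : ℝ, ((σ : ℂ) + τ * I).re = σ := by intro τ; simp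
  have h1 : (fun τ : ℝ => BZ (σ + τ * I)) = fun τ : ℝ =>
      Gamma (σ + τ * I + 1/3) * Gamma (1/3) / Gamma (σ + τ * I + 2/3) := by
    funext τ
    exact BZ_gamma (by rw [h0]; exact hσ)
  rw [h1]
  rw [continuous_iff_continuousAt]
  intro τ
  have h2 : ∀ c : ℝ, 0 < σ + c → ContinuousAt (fun τ : ℝ => Gamma ((σ : ℂ) + τ * I + c)) τ := by
    intro c hc
    have h3 : DifferentiableAt ℂ Gamma ((σ : ℂ) + τ * I + c) := by
      apply differentiableAt_Gamma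
      intro m hm
      have := congrArg re hm
      simp at this
      have hm0 : (0 : ℝ) ≤ m := Nat.cast_nonneg m
      linarith
    exact ContinuousAt.comp (f := fun τ : ℝ => (σ : ℂ) + τ * I + c) h3.continuousAt (by fun_prop)
  have h4 := h2 (1/3) (by linarith)
  have h5 := h2 (2/3) (by linarith)
  push_cast at h4 h5
  refine (h4.mul continuousAt_const).div h5 ?_
  apply Gamma_ne_zero_of_re_pos
  have : ((σ : ℂ) + τ * I + 2/3).re = σ + 2/3 := by simp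
  rw [this]; linarith


lemma hasDerivAt_G {x : ℝ} (hx : x < 1) :
    HasDerivAt (fun x : ℝ => (1 - x) ^ (-(2/3) : ℝ)) ((2/3) * (1 - x) ^ (-(5/3) : ℝ)) x := by
  have h1 : HasDerivAt (fun x : ℝ => 1 - x) (-1) x := by
    simpa using (hasDerivAt_id x).const_sub 1
  have h2 := h1.rpow_const (p := -(2/3)) (Or.inl (by linarith : (1 : ℝ) - x ≠ 0))
  convert h2 using 1
  have : (-(2/3) - 1 : ℝ) = -(5/3) := by norm_num
  rw [this]
  ring

lemma one_sub_cpow {x : ℝ} (hx : x ≤ 1) :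
    (1 - (x : ℂ)) ^ ((1/3 : ℂ) - 1) = (((1 - x) ^ (-(2/3) : ℝ) : ℝ) : ℂ) := by
  rw [ofReal_cpow (by linarith)]
  push_cast
  congr 1
  ring

lemma bound_near_one {u : ℂ} (hu : u.re = 1/6) {c : ℝ} (hc : 1/2 ≤ c) (hc1 : c < 1) :
    ‖∫ x in c..1, (x : ℂ) ^ (u - 1) * (1 - (x : ℂ)) ^ ((1/3 : ℂ) - 1)‖ ≤
      6 * (1 - c) ^ (1/3 : ℝ) := by
  have hint : IntervalIntegrable (fun x : ℝ => 2 * (1 - x) ^ (-(2/3) : ℝ)) volume c 1 := by
    apply IntervalIntegrable.const_mul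
    have := (intervalIntegral.intervalIntegrable_rpow' (a := 1 - c) (b := 0)
      (r := -(2/3)) (by norm_num)).comp_sub_left 1
    simpa using this
  have h1 : ‖∫ x in c..1, (x : ℂ) ^ (u - 1) * (1 - (x : ℂ)) ^ ((1/3 : ℂ) - 1)‖ ≤
      ∫ x in c..1, 2 * (1 - x) ^ (-(2/3) : ℝ) := by
    refine intervalIntegral.norm_integral_le_of_norm_le hc1.le ?_ hint
    filter_upwards with x hx
    have hx0 : 0 < x := by linarith [hx.1]
    rw [norm_mul, norm_cpow_eq_rpow_re_of_pos hx0, one_sub_cpow hx.2]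
    have h2 : (u - 1).re = -(5/6) := by simp [hu]; norm_num
    rw [h2, norm_real, Real.norm_of_nonneg (Real.rpow_nonneg (by linarith [hx.2]) _)]
    refine mul_le_mul_of_nonneg_right ?_ (Real.rpow_nonneg (by linarith [hx.2]) _)
    have h3 : x ^ (-(5/6) : ℝ) ≤ (1/2 : ℝ) ^ (-(5/6) : ℝ) :=
      Real.rpow_le_rpow_of_nonpos (by norm_num) (by linarith [hx.1]) (by norm_num)
    have h4 : (1/2 : ℝ) ^ (-(5/6) : ℝ) ≤ (1/2 : ℝ) ^ (-1 : ℝ) :=
      Real.rpow_le_rpow_of_exponent_ge (by norm_num) (by norm_num) (by norm_num)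
    rw [Real.rpow_neg_one] at h4
    linarith
  refine h1.trans ?_
  rw [intervalIntegral.integral_const_mul,
    intervalIntegral.integral_comp_sub_left (fun x : ℝ => x ^ (-(2/3) : ℝ)) 1,
    integral_rpow (Or.inl (by norm_num))]
  have h5 : (-(2/3) + 1 : ℝ) = 1/3 := by norm_num
  rw [h5, sub_self, Real.zero_rpow (by norm_num)]
  have : (2 : ℝ) * (((1 - c) ^ (1/3 : ℝ) - 0) / (1/3)) = 6 * (1 - c) ^ (1/3 : ℝ) := by ring
  rw [this]

lemma bound_far {u : ℂ} (hu : u.re = 1/6) {c : ℝ} (hc : 0 ≤ c) (hc1 : c < 1) :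
    ‖∫ x in (0:ℝ)..c, (x : ℂ) ^ (u - 1) * (1 - (x : ℂ)) ^ ((1/3 : ℂ) - 1)‖ ≤
      2 / ‖u‖ * (1 - c) ^ (-(2/3) : ℝ) := by
  have hu0 : u ≠ 0 := by
    intro h
    rw [h] at hu
    simp at hu
  have hun : 0 < ‖u‖ := norm_pos_iff.2 hu0
  set F : ℝ → ℂ := fun x => (x : ℂ) ^ u / u with hF
  set G : ℝ → ℂ := fun x => (((1 - x) ^ (-(2/3) : ℝ) : ℝ) : ℂ) with hG
  set G' : ℝ → ℂ := fun x => (((2/3) * (1 - x) ^ (-(5/3) : ℝ) : ℝ) : ℂ) with hG'
  have hFc : ContinuousOn F (uIcc 0 c) := by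
    apply Continuous.continuousOn
    apply Continuous.div_const
    exact continuous_ofReal_cpow_const (by rw [hu]; norm_num)
  have hGd : ∀ x < 1, HasDerivAt G (G' x) x := by
    intro x hx
    exact (hasDerivAt_G hx).ofReal_comp
  have hGc : ContinuousOn G (uIcc 0 c) := by
    intro x hx
    rw [uIcc_of_le hc] at hx
    exact (hGd x (lt_of_le_of_lt hx.2 hc1)).continuousAt.continuousWithinAt
  have hrc : ContinuousOn (fun x : ℝ => (2/3) * (1 - x) ^ (-(5/3) : ℝ)) (uIcc 0 c) := by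
    rw [uIcc_of_le hc]
    apply ContinuousOn.mul continuousOn_const
    apply ContinuousOn.rpow_const (by fun_prop)
    intro x hx
    left
    linarith [hx.2]
  have hG'i : IntervalIntegrable G' volume 0 c := by
    apply ContinuousOn.intervalIntegrable
    exact continuous_ofReal.comp_continuousOn hrc
  have hF'i : IntervalIntegrable (fun x : ℝ => (x : ℂ) ^ (u - 1)) volume 0 c := by
    apply intervalIntegral.intervalIntegrable_cpow'
    simp [hu]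
  have key := intervalIntegral.integral_mul_deriv_eq_deriv_mul_of_hasDerivAt (a := 0) (b := c)
    (u := G) (v := F) (u' := G') (v' := fun x : ℝ => (x : ℂ) ^ (u - 1)) hGc hFc
    (fun x hx => by
      rw [min_eq_left hc, max_eq_right hc] at hx
      exact hGd x (hx.2.trans hc1))
    (fun x hx => by
      rw [min_eq_left hc, max_eq_right hc] at hx
      have h1 := hasDerivAt_ofReal_cpow_const' (x := x) hx.1.ne' (r := u - 1) (by
        intro h
        apply hu0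
        linear_combination h)
      rw [sub_add_cancel] at h1
      exact h1) hG'i hF'i
  have h2 : (∫ x in (0:ℝ)..c, (x : ℂ) ^ (u - 1) * (1 - (x : ℂ)) ^ ((1/3 : ℂ) - 1)) =
      ∫ x in (0:ℝ)..c, G x * (x : ℂ) ^ (u - 1) := by
    apply intervalIntegral.integral_congr
    intro x hx
    rw [uIcc_of_le hc] at hx
    simp only [hG]
    rw [one_sub_cpow (hx.2.trans hc1.le), mul_comm]
  have hF0 : F 0 = 0 := by
    simp only [hF]
    rw [ofReal_zero, zero_cpow hu0, zero_div]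
  have hFb : ∀ x ∈ Icc (0:ℝ) 1, ‖F x‖ ≤ 1 / ‖u‖ := by
    intro x hx
    simp only [hF]
    rw [norm_div]
    apply div_le_div_of_nonneg_right _ hun.le
    rcases hx.1.eq_or_lt with h | h
    · rw [← h, ofReal_zero, zero_cpow hu0, norm_zero]
      norm_num
    · rw [norm_cpow_eq_rpow_re_of_pos h, hu]
      exact Real.rpow_le_one hx.1 hx.2 (by norm_num)
  have hGn : ∀ x < 1, ‖G' x‖ = (2/3) * (1 - x) ^ (-(5/3) : ℝ) := by
    intro x hx
    simp only [hG']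
    rw [norm_real, Real.norm_of_nonneg]
    have := Real.rpow_nonneg (by linarith : 0 ≤ 1 - x) (-(5/3))
    positivity
  have h3 : ‖∫ x in (0:ℝ)..c, G' x * F x‖ ≤
      ∫ x in (0:ℝ)..c, (1 / ‖u‖) * ((2/3) * (1 - x) ^ (-(5/3) : ℝ)) := by
    refine intervalIntegral.norm_integral_le_of_norm_le hc ?_ ?_
    · filter_upwards with x hx
      rw [norm_mul, hGn x (lt_of_le_of_lt hx.2 hc1), mul_comm]
      refine mul_le_mul_of_nonneg_right (hFb x ⟨hx.1.le, (hx.2.trans hc1.le)⟩) ?_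
      have := Real.rpow_nonneg (by linarith [hx.2] : 0 ≤ 1 - x) (-(5/3))
      positivity
    · exact (hrc.intervalIntegrable).const_mul _
  have h4 : ∫ x in (0:ℝ)..c, (2/3) * (1 - x) ^ (-(5/3) : ℝ) = (1 - c) ^ (-(2/3) : ℝ) - 1 := by
    rw [intervalIntegral.integral_eq_sub_of_hasDerivAt (f := fun x : ℝ => (1 - x) ^ (-(2/3) : ℝ))]
    · simp
    · intro x hx
      rw [uIcc_of_le hc] at hx
      exact hasDerivAt_G (lt_of_le_of_lt hx.2 hc1)
    · exact hrc.intervalIntegrable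
  rw [intervalIntegral.integral_const_mul, h4] at h3
  rw [h2, key, hF0, mul_zero, sub_zero]
  have h5 : ‖G c * F c‖ ≤ (1 / ‖u‖) * (1 - c) ^ (-(2/3) : ℝ) := by
    rw [norm_mul, mul_comm]
    have h6 : ‖G c‖ = (1 - c) ^ (-(2/3) : ℝ) := by
      simp only [hG]
      rw [norm_real, Real.norm_of_nonneg (Real.rpow_nonneg (by linarith) _)]
    rw [h6]
    exact mul_le_mul_of_nonneg_right (hFb c ⟨hc, hc1.le⟩) (Real.rpow_nonneg (by linarith) _)
  have h7 : 0 < 1 / ‖u‖ := by positivity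
  calc ‖G c * F c - ∫ x in (0:ℝ)..c, G' x * F x‖
      ≤ ‖G c * F c‖ + ‖∫ x in (0:ℝ)..c, G' x * F x‖ := norm_sub_le _ _
    _ ≤ (1 / ‖u‖) * (1 - c) ^ (-(2/3) : ℝ) + (1 / ‖u‖) * ((1 - c) ^ (-(2/3) : ℝ) - 1) := by
        linarith
    _ ≤ 2 / ‖u‖ * (1 - c) ^ (-(2/3) : ℝ) := by
        have : 2 / ‖u‖ = 2 * (1 / ‖u‖) := by ring
        rw [this]
        nlinarith

lemma BZ_bound_large {τ : ℝ} (hτ : 1 ≤ |τ|) :
    ‖betaIntegral (1/6 + τ * I) (1/3)‖ ≤ 10 * |τ| ^ (-(1/3) : ℝ) := by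
  have hτ0 : 0 < |τ| := by linarith
  set u : ℂ := 1/6 + τ * I with hu
  have hure : u.re = 1/6 := by simp [hu]
  have huim : u.im = τ := by simp [hu]
  have hun : |τ| ≤ ‖u‖ := by rw [← huim]; exact abs_im_le_norm u
  set δ : ℝ := (2 * |τ|)⁻¹ with hδ
  have hδ0 : 0 < δ := by positivity
  have hδ1 : δ ≤ 1/2 := by
    rw [hδ, inv_le_comm₀ (by positivity) (by norm_num)]
    linarith
  have hi := betaIntegral_convergent (u := u) (v := 1/3) (by rw [hure]; norm_num) (by norm_num)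
  have hsplit : betaIntegral u (1/3) =
      (∫ x in (0:ℝ)..(1 - δ), (x : ℂ) ^ (u - 1) * (1 - (x : ℂ)) ^ ((1/3 : ℂ) - 1)) +
      ∫ x in (1 - δ)..1, (x : ℂ) ^ (u - 1) * (1 - (x : ℂ)) ^ ((1/3 : ℂ) - 1) := by
    rw [betaIntegral, intervalIntegral.integral_add_adjacent_intervals]
    · exact hi.mono_set (by
        rw [uIcc_of_le (by linarith), uIcc_of_le (by norm_num)]
        exact Icc_subset_Icc le_rfl (by linarith))
    · exact hi.mono_set (by
        rw [uIcc_of_le (by linarith), uIcc_of_le (by norm_num)]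
        exact Icc_subset_Icc (by linarith) le_rfl)
  have h1 := bound_far hure (c := 1 - δ) (by linarith) (by linarith)
  have h2 := bound_near_one hure (c := 1 - δ) (by linarith) (by linarith)
  rw [sub_sub_cancel] at h1 h2
  have h3 : 2 / ‖u‖ * δ ^ (-(2/3) : ℝ) ≤ 4 * δ ^ (1/3 : ℝ) := by
    have h4 : 2 / ‖u‖ ≤ 4 * δ := by
      rw [hδ, mul_inv]
      rw [div_le_iff₀ (by linarith)]
      have : 4 * ((2:ℝ)⁻¹ * |τ|⁻¹) * ‖u‖ = 2 * (|τ|⁻¹ * ‖u‖) := by ring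
      rw [this]
      have h5 : 1 ≤ |τ|⁻¹ * ‖u‖ := by
        rw [inv_mul_eq_div, le_div_iff₀ hτ0]
        linarith
      linarith
    have h6 : δ ^ (1/3 : ℝ) = δ * δ ^ (-(2/3) : ℝ) := by
      rw [← Real.rpow_one_add' hδ0.le (by norm_num)]
      norm_num
    rw [h6, ← mul_assoc]
    exact mul_le_mul_of_nonneg_right h4 (Real.rpow_nonneg hδ0.le _)
  have h7 : δ ^ (1/3 : ℝ) ≤ |τ| ^ (-(1/3) : ℝ) := by
    rw [Real.rpow_neg hτ0.le, ← Real.inv_rpow hτ0.le]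
    apply Real.rpow_le_rpow hδ0.le _ (by norm_num)
    rw [hδ]
    apply inv_anti₀ hτ0
    linarith
  rw [hsplit]
  calc _ ≤ _ := norm_add_le _ _
    _ ≤ 4 * δ ^ (1/3 : ℝ) + 6 * δ ^ (1/3 : ℝ) := by linarith
    _ ≤ 10 * |τ| ^ (-(1/3) : ℝ) := by linarith

/-- decay of `BZ` on the line `Re z = -1/6` -/
lemma BZ_bound : ∃ C : ℝ, 0 < C ∧ ∀ τ : ℝ,
    ‖BZ (((-1/6 : ℝ) : ℂ) + τ * I)‖ ≤ C * (1 + ‖τ‖) ^ (-(1/3) : ℝ) := by
  have hc := continuous_BZ (-1/6) (by norm_num)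
  obtain ⟨K, hK⟩ := (isCompact_Icc (a := (-1 : ℝ)) (b := 1)).exists_bound_of_continuousOn
    hc.continuousOn
  refine ⟨max (K * 2 ^ (1/3 : ℝ)) 1 + 10 * 2 ^ (1/3 : ℝ), by positivity, fun τ => ?_⟩
  have h0 : 0 < 1 + ‖τ‖ := by positivity
  have hp : 0 ≤ (1 + ‖τ‖) ^ (-(1/3) : ℝ) := Real.rpow_nonneg h0.le _
  have h2 : (1 : ℝ) = 2 ^ (1/3 : ℝ) * 2 ^ (-(1/3) : ℝ) := by
    rw [← Real.rpow_add (by norm_num)]
    norm_num
  rcases le_or_gt |τ| 1 with h | h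
  · have h1 := hK τ (abs_le.1 h)
    have hK0 : 0 ≤ K := (norm_nonneg _).trans h1
    have h3 : (2 : ℝ) ^ (-(1/3) : ℝ) ≤ (1 + ‖τ‖) ^ (-(1/3) : ℝ) := by
      apply Real.rpow_le_rpow_of_nonpos h0 _ (by norm_num)
      rw [Real.norm_eq_abs]
      linarith
    calc _ ≤ K := h1
      _ = K * 2 ^ (1/3 : ℝ) * 2 ^ (-(1/3) : ℝ) := by rw [mul_assoc, ← h2, mul_one]
      _ ≤ K * 2 ^ (1/3 : ℝ) * (1 + ‖τ‖) ^ (-(1/3) : ℝ) := by gcongr
      _ ≤ _ := by
        refine mul_le_mul_of_nonneg_right ?_ hp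
        have := le_max_left (K * 2 ^ (1/3 : ℝ)) 1
        have h5 : (0:ℝ) ≤ 10 * 2 ^ (1/3 : ℝ) := by positivity
        linarith
  · have h1 := BZ_bound_large h.le
    have h4 : BZ (((-1/6 : ℝ) : ℂ) + τ * I) = betaIntegral (1/6 + τ * I) (1/3) := by
      rw [BZ]
      congr 1
      push_cast
      ring
    rw [h4]
    refine h1.trans ?_
    have h5 : |τ| ^ (-(1/3) : ℝ) ≤ 2 ^ (1/3 : ℝ) * (1 + ‖τ‖) ^ (-(1/3) : ℝ) := by
      have h6 : (2 * |τ|) ^ (-(1/3) : ℝ) ≤ (1 + ‖τ‖) ^ (-(1/3) : ℝ) := by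
        apply Real.rpow_le_rpow_of_nonpos h0 _ (by norm_num)
        rw [Real.norm_eq_abs]
        linarith
      have h7 : |τ| ^ (-(1/3) : ℝ) = 2 ^ (1/3 : ℝ) * (2 * |τ|) ^ (-(1/3) : ℝ) := by
        rw [Real.mul_rpow (by norm_num) (abs_nonneg _), ← mul_assoc, ← h2, one_mul]
      rw [h7]
      gcongr
    calc 10 * |τ| ^ (-(1/3) : ℝ) ≤ 10 * 2 ^ (1/3 : ℝ) * (1 + ‖τ‖) ^ (-(1/3) : ℝ) := by linarith
      _ ≤ _ := by
        refine mul_le_mul_of_nonneg_right ?_ hp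
        have := le_max_right (K * 2 ^ (1/3 : ℝ)) 1
        linarith

end Pool.Agent.H23.Cardy
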