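import Mathlib

/-!
# Partial fractions of `∏ (j+z)/(j-z)` and the finite sum `S k w`
-/

set_option autoImplicit false
open Finset

namespace Pool.Agent.H23.Cardy

/-- `∏_{k < j ≤ w} (j+z)/(j-z)` -/
noncomputable def Rp (k w : ℕ) (z : ℂ) : ℂ := ∏ j ∈ Ioc k w, (((j : ℂ) + z) / ((j : ℂ) - z))

/-- partial fraction coefficient -/
noncomputable def cf (k w m : ℕ) : ℂ :=
  (∏ j ∈ Ioc k w, ((m : ℂ) + j)) / (m * ∏ j ∈ (Ioc k w).erase m, ((m : ℂ) - j))

lemma pf {k w : ℕ} (hev : Even (w - k)) {z : ℂ} (hz0 : z ≠ 0)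
    (hz : ∀ j ∈ Ioc k w, z ≠ (j : ℂ)) :
    Rp k w z / (0 - z) = 1 / (0 - z) + ∑ m ∈ Ioc k w, cf k w m / (m - z) := by
  classical
  set v : ℕ → ℂ := fun j => (j : ℂ) with hv
  set s : Finset ℕ := insert 0 (Ioc k w) with hs
  have h0 : 0 ∉ Ioc k w := by simp
  have hinj : Set.InjOn v s := fun a _ b _ hab => Nat.cast_injective hab
  set f : Polynomial ℂ := ∏ j ∈ Ioc k w, (Polynomial.X + Polynomial.C (j : ℂ)) with hf
  have hev' : ∀ x : ℂ, Polynomial.eval x f = ∏ j ∈ Ioc k w, (x + j) := by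
    intro x
    rw [hf, Polynomial.eval_prod]
    simp
  have hdeg : f.degree < s.card := by
    rw [hf, Polynomial.degree_prod, hs, card_insert_of_notMem h0]
    simp only [Polynomial.degree_X_add_C]
    rw [sum_const, nsmul_eq_mul, mul_one]
    exact_mod_cast Nat.lt_succ_self _
  have h1 : f = Lagrange.interpolate s v (fun i => Polynomial.eval (v i) f) :=
    Lagrange.eq_interpolate_of_eval_eq _ hinj hdeg (fun i _ => rfl)
  have hzs : ∀ i ∈ s, z ≠ v i := by
    intro i hi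
    rw [hs, mem_insert] at hi
    rcases hi with rfl | hi
    · simpa [hv] using hz0
    · exact hz i hi
  have h2 := Lagrange.eval_interpolate_not_at_node (fun i => Polynomial.eval (v i) f) hzs
  rw [← h1, hev', Lagrange.eval_nodal, hs, prod_insert h0, sum_insert h0] at h2
  have hsgn : ∀ g : ℕ → ℂ, ∏ j ∈ Ioc k w, (-(g j)) = ∏ j ∈ Ioc k w, g j := by
    intro g
    rw [prod_neg, Nat.card_Ioc, hev.neg_one_pow, one_mul]
  -- the node 0
  have h3 : Lagrange.nodalWeight (insert 0 (Ioc k w)) v 0 * (z - v 0)⁻¹ *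
      Polynomial.eval (v 0) f = z⁻¹ := by
    rw [hev', Lagrange.nodalWeight, erase_insert h0]
    have e1 : v 0 = 0 := by simp [hv]
    rw [e1]
    have e2 : (∏ j ∈ Ioc k w, (0 - v j)⁻¹) * ∏ j ∈ Ioc k w, (0 + (j : ℂ)) = 1 := by
      have e3 : ∀ j : ℕ, (0 - v j)⁻¹ = -((j : ℂ)⁻¹) := by
        intro j
        simp only [hv]
        rw [zero_sub, inv_neg]
      simp only [e3]
      rw [hsgn, ← prod_mul_distrib]
      apply prod_eq_one
      intro j hj
      rw [mem_Ioc] at hj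
      have : (j : ℂ) ≠ 0 := Nat.cast_ne_zero.2 (by omega)
      rw [zero_add, inv_mul_cancel₀ this]
    calc _ = ((∏ j ∈ Ioc k w, (0 - v j)⁻¹) * ∏ j ∈ Ioc k w, (0 + (j : ℂ))) * (z - 0)⁻¹ := by ring
      _ = z⁻¹ := by rw [e2, one_mul, sub_zero]
  have h4 : ∀ m ∈ Ioc k w, Lagrange.nodalWeight (insert 0 (Ioc k w)) v m * (z - v m)⁻¹ *
      Polynomial.eval (v m) f = cf k w m / (z - m) := by
    intro m hm
    have hm0 : m ≠ 0 := by
      rw [mem_Ioc] at hm
      omega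
    rw [hev', Lagrange.nodalWeight, erase_insert_of_ne hm0.symm,
      prod_insert (by simp), cf]
    simp only [hv]
    rw [prod_inv_distrib, Nat.cast_zero, sub_zero]
    rw [div_eq_mul_inv, div_eq_mul_inv, mul_inv]
    ring
  rw [h3, sum_congr rfl h4] at h2
  have hden : ∏ j ∈ Ioc k w, (z - v j) = ∏ j ∈ Ioc k w, ((j : ℂ) - z) := by
    rw [← hsgn]
    apply prod_congr rfl
    intro j _
    simp only [hv]
    ring
  have hden0 : ∏ j ∈ Ioc k w, ((j : ℂ) - z) ≠ 0 := by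
    rw [prod_ne_zero_iff]
    intro j hj h
    apply hz j hj
    linear_combination -h
  have e1 : v 0 = 0 := by simp [hv]
  rw [hden, e1, sub_zero] at h2
  have h5 : Rp k w z = z * (z⁻¹ + ∑ m ∈ Ioc k w, cf k w m / (z - m)) := by
    rw [Rp, prod_div_distrib, div_eq_iff hden0]
    have h6 : ∏ j ∈ Ioc k w, ((j : ℂ) + z) = ∏ j ∈ Ioc k w, (z + (j : ℂ)) :=
      prod_congr rfl (fun j _ => add_comm _ _)
    rw [h6, h2]
    ring
  rw [h5, zero_sub, div_neg, mul_div_cancel_left₀ _ hz0, neg_add, ← sum_neg_distrib, one_div,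
    inv_neg]
  congr 1
  apply sum_congr rfl
  intro m _
  have : (m : ℂ) - z = -(z - m) := by ring
  rw [this, div_neg]

/-- `r_m = ∏_{i<m} (3i+1)/(3i+2)` -/
noncomputable def rm (m : ℕ) : ℝ := ∏ i ∈ range m, ((3 * i + 1 : ℝ) / (3 * i + 2))

/-- the finite sum -/
noncomputable def S (k w : ℕ) : ℝ :=
  2 * ∑ m ∈ Ioc k w, (-1 : ℝ) ^ m * ((w + m).choose (2 * m)) * ((2 * m - 1).choose (m + k)) * rm m

lemma prod_add_Ioc (k w m : ℕ) (h : k ≤ w) :
    (∏ j ∈ Ioc k w, ((m : ℂ) + j)) * ((m + k).factorial : ℂ) = ((w + m).factorial : ℂ) := by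
  induction w, h using Nat.le_induction with
  | base => simp [add_comm]
  | succ w h ih =>
    rw [← Finset.insert_Ioc_right_eq_Ioc_add_one h, prod_insert (by simp), mul_assoc, ih]
    have : w + 1 + m = (w + m) + 1 := by ring
    rw [this, Nat.factorial_succ]
    push_cast
    ring

lemma prod_sub_left (k m : ℕ) (h : k < m) :
    ∏ j ∈ Ioo k m, ((m : ℂ) - j) = ((m - k - 1).factorial : ℂ) := by
  obtain ⟨d, rfl⟩ := Nat.exists_eq_add_of_lt h
  have h1 : k + d + 1 - k - 1 = d := by omega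
  rw [h1, ← prod_range_add_one_eq_factorial]
  push_cast
  refine prod_bij' (fun j _ => k + d - j) (fun j _ => k + d - j) ?_ ?_ ?_ ?_ ?_
  · intro j hj
    rw [mem_Ioo] at hj
    rw [mem_range]
    omega
  · intro j hj
    rw [mem_range] at hj
    rw [mem_Ioo]
    omega
  · intro j hj
    rw [mem_Ioo] at hj
    omega
  · intro j hj
    rw [mem_range] at hj
    omega
  · intro j hj
    rw [mem_Ioo] at hj
    rw [Nat.cast_sub (by omega)]
    push_cast
    ring

lemma prod_sub_right (w m : ℕ) (h : m ≤ w) :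
    ∏ j ∈ Ioc m w, ((m : ℂ) - j) = (-1) ^ (w - m) * ((w - m).factorial : ℂ) := by
  induction w, h using Nat.le_induction with
  | base => simp
  | succ w h ih =>
    rw [← Finset.insert_Ioc_right_eq_Ioc_add_one h, prod_insert (by simp), ih]
    have : w + 1 - m = (w - m) + 1 := by omega
    rw [this, Nat.factorial_succ, pow_succ]
    push_cast
    rw [Nat.cast_sub h]
    ring

lemma cf_eq {k w m : ℕ} (hw : Odd w) (hm : m ∈ Ioc k w) :
    cf k w m = -(2 * ((-1 : ℂ) ^ m * ((w + m).choose (2 * m)) * ((2 * m - 1).choose (m + k)))) := by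
  classical
  rw [mem_Ioc] at hm
  obtain ⟨hkm, hmw⟩ := hm
  have hm0 : 0 < m := by omega
  have h1 := prod_add_Ioc k w m (by omega)
  have h2 : (Ioc k w).erase m = Ioo k m ∪ Ioc m w := by
    ext j
    rw [mem_erase, mem_Ioc, mem_union, mem_Ioo, mem_Ioc]
    omega
  have h3 : Disjoint (Ioo k m) (Ioc m w) := by
    rw [disjoint_left]
    intro j hj hj'
    rw [mem_Ioo] at hj
    rw [mem_Ioc] at hj'
    omega
  have hf1 : ((m + k).factorial : ℂ) ≠ 0 := Nat.cast_ne_zero.2 (Nat.factorial_ne_zero _)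
  have hf2 : ((m - k - 1).factorial : ℂ) ≠ 0 := Nat.cast_ne_zero.2 (Nat.factorial_ne_zero _)
  have hf3 : ((w - m).factorial : ℂ) ≠ 0 := Nat.cast_ne_zero.2 (Nat.factorial_ne_zero _)
  have hf4 : ((2 * m - 1).factorial : ℂ) ≠ 0 := Nat.cast_ne_zero.2 (Nat.factorial_ne_zero _)
  have hmc : (m : ℂ) ≠ 0 := Nat.cast_ne_zero.2 (by omega)
  have h4 : ((2 * m).factorial : ℂ) = 2 * m * ((2 * m - 1).factorial : ℂ) := by
    have : 2 * m = (2 * m - 1) + 1 := by omega
    conv_lhs => rw [this, Nat.factorial_succ]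
    have h5 : (((2 * m - 1 + 1 : ℕ)) : ℂ) = 2 * m := by
      rw [← this]
      push_cast
      ring
    rw [Nat.cast_mul, h5]
  rw [Nat.cast_choose ℂ (by omega : 2 * m ≤ w + m), Nat.cast_choose ℂ (by omega : m + k ≤ 2 * m - 1)]
  have e1 : w + m - 2 * m = w - m := by omega
  have e2 : 2 * m - 1 - (m + k) = m - k - 1 := by omega
  rw [e1, e2, cf, h2, prod_union h3, prod_sub_left k m hkm, prod_sub_right w m hmw, h4]
  have h6 : (-1 : ℂ) ^ (w - m) = -((-1 : ℂ) ^ m) := by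
    have h7 : (-1 : ℂ) ^ (w - m) * (-1) ^ m = -1 := by
      rw [← pow_add, Nat.sub_add_cancel hmw, hw.neg_one_pow]
    have h8 : (-1 : ℂ) ^ m * (-1) ^ m = 1 := by
      rw [← pow_add, ← two_mul, pow_mul]
      simp
    calc (-1 : ℂ) ^ (w - m) = (-1 : ℂ) ^ (w - m) * ((-1) ^ m * (-1) ^ m) := by rw [h8, mul_one]
      _ = ((-1 : ℂ) ^ (w - m) * (-1) ^ m) * (-1) ^ m := by ring
      _ = _ := by rw [h7]; ring
  have h9 : (-1 : ℂ) ^ m * (-1) ^ m = 1 := by
    rw [← pow_add, ← two_mul, pow_mul]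
    simp
  have h10 : (-1 : ℂ) ^ m ≠ 0 := pow_ne_zero _ (by norm_num)
  rw [h6, ← h1]
  field_simp
  linear_combination (∏ j ∈ Ioc k w, ((m : ℂ) + j)) * h9

end Pool.Agent.H23.Cardy
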