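import Pool.Agent.H23.Cardy.Mellin
import Pool.Agent.H23.Cardy.PF

/-!
# The finite sum `1 - S k w` converges to Cardy's formula
-/

set_option autoImplicit false
open MeasureTheory Complex Filter Topology

namespace Pool.Agent.H23.Cardy

/-! ### the exact integral formula -/

/-- total mass -/
noncomputable def M0 : ℝ := ∫ s in Set.Ioo (0:ℝ) 1, Wt s

lemma theta_one (m : ℕ) : (theta m 1 : ℂ) = BZ m := by
  rw [BZ_eq, theta, ← integral_complex_ofReal]
  apply setIntegral_congr_fun measurableSet_Ioo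
  intro s hs
  simp only
  unfold ker
  rw [if_pos hs.2, cpow_natCast]
  push_cast
  rw [div_one]

lemma theta_zero_one : theta 0 1 = M0 := by
  unfold theta M0
  apply setIntegral_congr_fun measurableSet_Ioo
  intro s hs
  simp only
  unfold ker
  rw [if_pos hs.2]
  simp

lemma BZ_nat (m : ℕ) : BZ m = rm m * M0 := by
  induction m with
  | zero =>
    have := theta_one 0
    rw [theta_zero_one] at this
    simp only [rm, Finset.range_zero, Finset.prod_empty, ofReal_one, one_mul]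
    exact this.symm
  | succ m ih =>
    have hm : (0:ℝ) ≤ m := Nat.cast_nonneg m
    have h1 : -1/3 < ((m : ℂ)).re := by simp; linarith
    have h2 : -1/3 < (((m + 1 : ℕ) : ℂ)).re := by simp; linarith
    have h3 : ((m : ℂ) + 1/3) ≠ 0 := by
      intro h
      have := congrArg re h
      simp at this
      linarith
    have h4 : ((m : ℂ) + 2/3) ≠ 0 := by
      intro h
      have := congrArg re h
      simp at this
      linarith
    have h5 : (3 * (m : ℂ) + 2) ≠ 0 := by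
      intro h
      apply h4
      linear_combination (1/3 : ℂ) * h
    have h6 : Gamma ((m : ℂ) + 2/3) ≠ 0 := by
      apply Gamma_ne_zero_of_re_pos
      simp
      linarith
    have e1 : (((m + 1 : ℕ) : ℂ)) + 1/3 = ((m : ℂ) + 1/3) + 1 := by push_cast; ring
    have e2 : (((m + 1 : ℕ) : ℂ)) + 2/3 = ((m : ℂ) + 2/3) + 1 := by push_cast; ring
    rw [BZ_gamma h1] at ih
    rw [BZ_gamma h2, e1, e2, Gamma_add_one _ h3, Gamma_add_one _ h4, rm, Finset.prod_range_succ]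
    rw [rm] at ih
    push_cast
    push_cast at ih
    rw [div_eq_iff h6] at ih
    rw [div_eq_iff (mul_ne_zero h4 h6)]
    calc ((m : ℂ) + 1/3) * Gamma ((m : ℂ) + 1/3) * Gamma (1/3) =
        ((m : ℂ) + 1/3) * (Gamma ((m : ℂ) + 1/3) * Gamma (1/3)) := by ring
      _ = _ := by
        rw [ih]
        have key : (3 * (m : ℂ) + 1) / (3 * m + 2) * (m + 2/3) = m + 1/3 := by
          rw [div_mul_eq_mul_div, div_eq_iff h5]
          ring
        generalize Gamma ((m : ℂ) + 2/3) = G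
        linear_combination (-(∏ x ∈ Finset.range m, (3 * (x : ℂ) + 1) / (3 * x + 2)) * M0 * G) * key

lemma zz_ne_zero (τ : ℝ) : zz τ ≠ 0 := by
  intro h
  have := congrArg re h
  rw [zz_re] at this
  norm_num at this

lemma zz_ne_nat (τ : ℝ) (j : ℕ) : zz τ ≠ j := by
  intro h
  have := congrArg re h
  rw [zz_re] at this
  simp at this
  have hj : (0:ℝ) ≤ j := Nat.cast_nonneg j
  linarith

/-- exact formula -/
theorem formula {k w : ℕ} (hk : Odd k) (hw : Odd w) :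
    (1 / (2 * Real.pi) : ℝ) • ∫ τ : ℝ, Rp k w (zz τ) * (BZ (zz τ) / (((0 : ℕ) : ℂ) - zz τ)) =
      (((1 - S k w) * M0 : ℝ) : ℂ) := by
  have hev : Even (w - k) := Nat.Odd.sub_odd hw hk
  have h1 : ∀ τ : ℝ, Rp k w (zz τ) * (BZ (zz τ) / (((0 : ℕ) : ℂ) - zz τ)) =
      BZ (zz τ) / (((0 : ℕ) : ℂ) - zz τ) +
        ∑ m ∈ Finset.Ioc k w, cf k w m * (BZ (zz τ) / ((m : ℂ) - zz τ)) := by
    intro τ
    have h := pf hev (zz_ne_zero τ) (fun j _ => zz_ne_nat τ j)
    have e1 : Rp k w (zz τ) * (BZ (zz τ) / (((0 : ℕ) : ℂ) - zz τ)) =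
        BZ (zz τ) * (Rp k w (zz τ) / (0 - zz τ)) := by
      rw [Nat.cast_zero]
      ring
    rw [e1, h, mul_add, Finset.mul_sum, Nat.cast_zero]
    congr 1
    · ring
    · apply Finset.sum_congr rfl
      intro m _
      ring
  simp only [h1]
  rw [integral_add (integrable_BZ_div 0) (integrable_finsetSum _ fun m _ =>
    (integrable_BZ_div m).const_mul _), integral_finsetSum _ fun m _ =>
    (integrable_BZ_div m).const_mul _]
  simp only [integral_const_mul]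
  rw [smul_add, Finset.smul_sum]
  have h2 : ∀ m : ℕ, (1 / (2 * Real.pi) : ℝ) • ∫ τ : ℝ, BZ (zz τ) / ((m : ℂ) - zz τ) =
      (rm m * M0 : ℂ) := by
    intro m
    have h := inversion m (x := 1) one_pos
    rw [theta_one, BZ_nat] at h
    rw [← h]
    congr 1
    apply integral_congr_ae
    filter_upwards with τ
    rw [ofReal_one, one_cpow, one_mul]
  have h3 : ∀ m : ℕ, (1 / (2 * Real.pi) : ℝ) • (cf k w m * ∫ τ : ℝ, BZ (zz τ) / ((m : ℂ) - zz τ)) =
      cf k w m * (rm m * M0 : ℂ) := by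
    intro m
    rw [← h2 m, mul_smul_comm]
  simp only [h3]
  rw [h2 0, S]
  have h4 : ∀ m ∈ Finset.Ioc k w, cf k w m * (rm m * M0 : ℂ) =
      -(2 * ((-1 : ℂ) ^ m * ((w + m).choose (2 * m)) * ((2 * m - 1).choose (m + k)))) *
        (rm m * M0 : ℂ) := by
    intro m hm
    rw [cf_eq hw hm]
  rw [Finset.sum_congr rfl h4]
  push_cast
  rw [sub_mul, one_mul, Finset.mul_sum, Finset.sum_mul, sub_eq_add_neg, ← Finset.sum_neg_distrib]
  congr 1
  · simp [rm]
  · apply Finset.sum_congr rfl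
    intro m _
    ring

/-! ### convergence of the product -/

lemma factor_le {j : ℕ} {z : ℂ} (hz : z.re ≤ 0) :
    ‖((j : ℂ) + z) / ((j : ℂ) - z)‖ ≤ 1 := by
  rw [norm_div]
  apply div_le_one_of_le₀ _ (norm_nonneg _)
  rw [← sq_le_sq₀ (norm_nonneg _) (norm_nonneg _), Complex.sq_norm, Complex.sq_norm,
    normSq_apply, normSq_apply]
  simp only [add_re, sub_re, natCast_re, add_im, sub_im, natCast_im]
  have hj : (0:ℝ) ≤ j := Nat.cast_nonneg j
  nlinarith [mul_nonneg hj (neg_nonneg.2 hz)]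

lemma norm_Rp_le {k w : ℕ} {z : ℂ} (hz : z.re ≤ 0) : ‖Rp k w z‖ ≤ 1 := by
  rw [Rp, norm_prod]
  exact Finset.prod_le_one (fun _ _ => norm_nonneg _) (fun j _ => factor_le hz)

/-- comparison factor -/
noncomputable def bb (z : ℂ) (j : ℕ) : ℂ := exp (2 * z * ((Real.log j - Real.log (j - 1) : ℝ) : ℂ))

lemma norm_exp_le {z : ℂ} (hz : z.re ≤ 0) {l : ℝ} (hl : 0 ≤ l) :
    ‖exp (2 * z * (l : ℂ))‖ ≤ 1 := by
  rw [norm_exp]
  have : (2 * z * (l : ℂ)).re = 2 * z.re * l := by simp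
  rw [this]
  apply Real.exp_le_one_iff.2
  nlinarith [mul_nonneg hl (neg_nonneg.2 hz)]

lemma log_bounds {j : ℕ} (hj : 2 ≤ j) :
    1 / (j : ℝ) ≤ Real.log j - Real.log (j - 1) ∧
      Real.log j - Real.log (j - 1) ≤ 1 / ((j : ℝ) - 1) := by
  have h2 : (2:ℝ) ≤ j := by exact_mod_cast hj
  have h0 : (0:ℝ) < j := by linarith
  have h1 : (0:ℝ) < (j:ℝ) - 1 := by linarith
  constructor
  · have h := Real.log_le_sub_one_of_pos (x := ((j:ℝ) - 1) / j) (by positivity)
    rw [Real.log_div h1.ne' h0.ne'] at h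
    have e : ((j:ℝ) - 1) / j - 1 = -(1 / (j:ℝ)) := by field_simp; ring
    rw [e] at h
    linarith
  · have h := Real.log_le_sub_one_of_pos (x := (j:ℝ) / ((j:ℝ) - 1)) (by positivity)
    rw [Real.log_div h0.ne' h1.ne'] at h
    have e : (j:ℝ) / ((j:ℝ) - 1) - 1 = 1 / ((j:ℝ) - 1) := by field_simp; ring
    rw [e] at h
    linarith

lemma diff_bound {j : ℕ} (hj : 2 ≤ j) {z : ℂ} (hz : z.re ≤ 0) :
    ‖((j : ℂ) + z) / ((j : ℂ) - z) - bb z j‖ ≤
      (16 * ‖z‖ ^ 2 + 2 * ‖z‖) * (1 / ((j : ℝ) - 1) - 1 / j) := by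
  have h2 : (2:ℝ) ≤ j := by exact_mod_cast hj
  have h0 : (0:ℝ) < j := by linarith
  have h1 : (0:ℝ) < (j:ℝ) - 1 := by linarith
  obtain ⟨hl1, hl2⟩ := log_bounds hj
  set l : ℝ := Real.log j - Real.log (j - 1) with hl
  have hl0 : 0 ≤ l := le_trans (by positivity) hl1
  set D : ℝ := 1 / ((j : ℝ) - 1) - 1 / j with hD
  have hDe : D = 1 / ((j : ℝ) * ((j : ℝ) - 1)) := by
    rw [hD]
    field_simp
    ring
  have hD1 : 1 / (j : ℝ) ^ 2 ≤ D := by
    rw [hDe]
    apply one_div_le_one_div_of_le (by positivity)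
    nlinarith
  have hD2 : 1 / ((j : ℝ) - 1) ^ 2 ≤ 2 * D := by
    rw [hDe, div_le_iff₀ (by positivity)]
    have : 2 * (1 / ((j:ℝ) * ((j:ℝ) - 1))) * ((j:ℝ) - 1) ^ 2 = 2 * (((j:ℝ) - 1) / j) := by
      field_simp
    rw [this]
    rw [← mul_div_assoc, le_div_iff₀ h0]
    linarith
  have hl3 : l ^ 2 ≤ 2 * D := by
    refine le_trans ?_ hD2
    rw [one_div, ← inv_pow, ← one_div]
    exact pow_le_pow_left₀ hl0 hl2 2
  have hD0 : 0 ≤ D := le_trans (by positivity) hD1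
  have hn : ‖2 * z * (l : ℂ)‖ = 2 * ‖z‖ * l := by
    rw [norm_mul, norm_mul, norm_real, Real.norm_of_nonneg hl0]
    norm_num
  by_cases hc : ‖2 * z * (l : ℂ)‖ ≤ 1
  · have hb := Complex.norm_exp_sub_one_sub_id_le hc
    have hjz : (j : ℝ) ≤ ‖(j : ℂ) - z‖ := by
      refine le_trans ?_ (le_trans (le_abs_self _) (abs_re_le_norm _))
      simp
      exact hz
    have hjz0 : (j : ℂ) - z ≠ 0 := norm_pos_iff.1 (lt_of_lt_of_le h0 hjz)
    have hjc : (j : ℂ) ≠ 0 := by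
      have : j ≠ 0 := by omega
      exact_mod_cast this
    have ha : ((j : ℂ) + z) / ((j : ℂ) - z) - 1 - 2 * z / j =
        2 * z ^ 2 / ((j : ℂ) * ((j : ℂ) - z)) := by
      field_simp
      ring
    have ha' : ‖((j : ℂ) + z) / ((j : ℂ) - z) - 1 - 2 * z / j‖ ≤ 2 * ‖z‖ ^ 2 * D := by
      rw [ha, norm_div, norm_mul, norm_mul, norm_pow]
      have e1 : ‖(2 : ℂ)‖ = 2 := by norm_num
      have e2 : ‖(j : ℂ)‖ = j := by simp
      rw [e1, e2, div_eq_mul_one_div]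
      refine mul_le_mul_of_nonneg_left ?_ (by positivity)
      refine le_trans ?_ hD1
      apply one_div_le_one_div_of_le (by positivity)
      rw [sq]
      exact mul_le_mul_of_nonneg_left hjz h0.le
    have hm : ‖2 * z / (j : ℂ) - 2 * z * (l : ℂ)‖ ≤ 2 * ‖z‖ * D := by
      have e : 2 * z / (j : ℂ) - 2 * z * (l : ℂ) = 2 * z * (((1 / (j : ℝ) - l : ℝ)) : ℂ) := by
        push_cast
        ring
      rw [e, norm_mul, norm_mul, norm_real]
      have e1 : ‖(2 : ℂ)‖ = 2 := by norm_num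
      rw [e1]
      refine mul_le_mul_of_nonneg_left ?_ (by positivity)
      rw [Real.norm_eq_abs, abs_sub_comm, abs_of_nonneg (by linarith)]
      rw [hD]
      linarith
    have hsum : ((j : ℂ) + z) / ((j : ℂ) - z) - bb z j =
        (((j : ℂ) + z) / ((j : ℂ) - z) - 1 - 2 * z / j) -
        (exp (2 * z * (l : ℂ)) - 1 - 2 * z * (l : ℂ)) + (2 * z / (j : ℂ) - 2 * z * (l : ℂ)) := by
      rw [bb, ← hl]
      ring
    rw [hsum]
    have hb' : ‖exp (2 * z * (l : ℂ)) - 1 - 2 * z * (l : ℂ)‖ ≤ 8 * ‖z‖ ^ 2 * D := by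
      refine hb.trans ?_
      rw [hn]
      nlinarith [sq_nonneg ‖z‖, mul_le_mul_of_nonneg_left hl3 (sq_nonneg (2 * ‖z‖))]
    calc _ ≤ 2 * ‖z‖ ^ 2 * D + 8 * ‖z‖ ^ 2 * D + 2 * ‖z‖ * D := by
          refine (norm_add_le _ _).trans (add_le_add ((norm_sub_le _ _).trans
            (add_le_add ha' hb')) hm)
      _ ≤ _ := by
          nlinarith [mul_nonneg (sq_nonneg ‖z‖) hD0]
  · push Not at hc
    rw [hn] at hc
    have h3 : ‖((j : ℂ) + z) / ((j : ℂ) - z) - bb z j‖ ≤ 2 := by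
      refine (norm_sub_le _ _).trans ?_
      have h4 := factor_le (j := j) hz
      have h5 : ‖bb z j‖ ≤ 1 := norm_exp_le hz hl0
      linarith
    refine h3.trans ?_
    have h6 : 1 ≤ (2 * ‖z‖ * l) ^ 2 := by
      nlinarith
    have h7 : (2 * ‖z‖ * l) ^ 2 ≤ 8 * ‖z‖ ^ 2 * D := by
      nlinarith [sq_nonneg ‖z‖, mul_le_mul_of_nonneg_left hl3 (sq_nonneg (2 * ‖z‖))]
    nlinarith [mul_nonneg (norm_nonneg z) hD0]

/-- comparison with the power function -/
lemma Rp_sub_exp {k w : ℕ} (hk : 1 ≤ k) (hkw : k ≤ w) {z : ℂ} (hz : z.re ≤ 0) :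
    ‖Rp k w z - exp (2 * z * ((Real.log w - Real.log k : ℝ) : ℂ))‖ ≤
      (16 * ‖z‖ ^ 2 + 2 * ‖z‖) * (1 / (k : ℝ) - 1 / w) := by
  induction w, hkw using Nat.le_induction with
  | base => simp [Rp]
  | succ w hkw ih =>
    have h1 : Rp k (w + 1) z = (((w + 1 : ℕ) : ℂ) + z) / (((w + 1 : ℕ) : ℂ) - z) * Rp k w z := by
      rw [Rp, ← Finset.insert_Ioc_right_eq_Ioc_add_one hkw, Finset.prod_insert (by simp), Rp]
    have h2 : exp (2 * z * ((Real.log ((w + 1 : ℕ) : ℝ) - Real.log k : ℝ) : ℂ)) =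
        bb z (w + 1) * exp (2 * z * ((Real.log w - Real.log k : ℝ) : ℂ)) := by
      have e0 : ((w + 1 : ℕ) : ℝ) - 1 = w := by push_cast; ring
      rw [bb, ← exp_add, ← mul_add, ← ofReal_add, e0]
      congr 3
      ring
    have h3 := diff_bound (j := w + 1) (by omega) hz
    have h4 : ‖Rp k w z‖ ≤ 1 := norm_Rp_le hz
    have h5 : ‖bb z (w + 1)‖ ≤ 1 := by
      apply norm_exp_le hz
      have := (log_bounds (j := w + 1) (by omega)).1
      exact le_trans (by positivity) this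
    rw [h1, h2]
    have e : (((w + 1 : ℕ) : ℂ) + z) / (((w + 1 : ℕ) : ℂ) - z) * Rp k w z -
        bb z (w + 1) * exp (2 * z * ((Real.log w - Real.log k : ℝ) : ℂ)) =
        ((((w + 1 : ℕ) : ℂ) + z) / (((w + 1 : ℕ) : ℂ) - z) - bb z (w + 1)) * Rp k w z +
        bb z (w + 1) * (Rp k w z - exp (2 * z * ((Real.log w - Real.log k : ℝ) : ℂ))) := by
      ring
    rw [e]
    have h6 : ‖((((w + 1 : ℕ) : ℂ) + z) / (((w + 1 : ℕ) : ℂ) - z) - bb z (w + 1)) * Rp k w z‖ ≤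
        (16 * ‖z‖ ^ 2 + 2 * ‖z‖) * (1 / (((w + 1 : ℕ) : ℝ) - 1) - 1 / ((w + 1 : ℕ) : ℝ)) := by
      rw [norm_mul]
      exact (mul_le_of_le_one_right (norm_nonneg _) h4).trans h3
    have h7 : ‖bb z (w + 1) * (Rp k w z - exp (2 * z * ((Real.log w - Real.log k : ℝ) : ℂ)))‖ ≤
        (16 * ‖z‖ ^ 2 + 2 * ‖z‖) * (1 / (k : ℝ) - 1 / w) := by
      rw [norm_mul]
      exact (mul_le_of_le_one_left (norm_nonneg _) h5).trans ih
    have h8 : (((w + 1 : ℕ) : ℝ) - 1) = w := by push_cast; ring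
    rw [h8] at h6
    calc _ ≤ _ := norm_add_le _ _
      _ ≤ _ := add_le_add h6 h7
      _ = _ := by ring


/-- `((k/w)^2)^(-z)` -/
noncomputable def Tp (k w : ℕ) (z : ℂ) : ℂ := exp (2 * z * ((Real.log w - Real.log k : ℝ) : ℂ))

lemma Tp_eq {k w : ℕ} (hk : 1 ≤ k) (hw : 1 ≤ w) (z : ℂ) :
    Tp k w z = (((((k : ℝ) / w) ^ 2 : ℝ)) : ℂ) ^ (-z) := by
  have hk0 : (0:ℝ) < k := by exact_mod_cast hk
  have hw0 : (0:ℝ) < w := by exact_mod_cast hw
  have h0 : (0:ℝ) < ((k : ℝ) / w) ^ 2 := by positivity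
  rw [cpow_def_of_ne_zero (ofReal_ne_zero.2 h0.ne'), ← ofReal_log h0.le, Real.log_pow,
    Real.log_div hk0.ne' hw0.ne', Tp]
  congr 1
  push_cast
  ring

lemma norm_Tp_le {k w : ℕ} (hk : 1 ≤ k) (hkw : k ≤ w) {z : ℂ} (hz : z.re ≤ 0) :
    ‖Tp k w z‖ ≤ 1 := by
  apply norm_exp_le hz
  have hk0 : (0:ℝ) < k := by exact_mod_cast hk
  have := Real.log_le_log hk0 (by exact_mod_cast hkw : (k:ℝ) ≤ w)
  linarith

lemma norm_Tp_mono {k K w : ℕ} (hk : 1 ≤ k) (hK : k ≤ K) {z : ℂ} (hz : z.re ≤ 0) :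
    ‖Tp k w z‖ ≤ ‖Tp K w z‖ := by
  rw [Tp, Tp, norm_exp, norm_exp]
  apply Real.exp_le_exp.2
  have e : ∀ l : ℝ, (2 * z * (l : ℂ)).re = 2 * z.re * l := by intro l; simp
  rw [e, e]
  have hk0 : (0:ℝ) < k := by exact_mod_cast hk
  have := Real.log_le_log hk0 (by exact_mod_cast hK : (k:ℝ) ≤ K)
  nlinarith [mul_nonneg (sub_nonneg.2 this) (neg_nonneg.2 hz)]

lemma Rp_split {k K w : ℕ} (h1 : k ≤ K) (h2 : K ≤ w) (z : ℂ) :
    Rp k w z = Rp k K z * Rp K w z := by
  have h3 : Finset.Ioc k w = Finset.Ioc k K ∪ Finset.Ioc K w := by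
    ext j
    simp only [Finset.mem_union, Finset.mem_Ioc]
    omega
  have h4 : Disjoint (Finset.Ioc k K) (Finset.Ioc K w) := by
    rw [Finset.disjoint_left]
    intro j hj hj'
    rw [Finset.mem_Ioc] at hj hj'
    omega
  rw [Rp, h3, Finset.prod_union h4, Rp, Rp]

lemma Rp_sub_Tp {k K w : ℕ} (hk : 1 ≤ k) (hkw : k ≤ w) (hK1 : 1 ≤ K) (hK : K ≤ w) {z : ℂ}
    (hz : z.re ≤ 0) :
    ‖Rp k w z - Tp k w z‖ ≤ 2 * ‖Tp K w z‖ + (16 * ‖z‖ ^ 2 + 2 * ‖z‖) / K := by
  have hA : 0 ≤ 16 * ‖z‖ ^ 2 + 2 * ‖z‖ := by positivity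
  have hK0 : (0:ℝ) < K := by exact_mod_cast hK1
  have hw0 : (0:ℝ) < w := by exact_mod_cast (hK1.trans hK)
  have hstep : ∀ q : ℕ, 1 ≤ q → K ≤ q → q ≤ w →
      ‖Rp q w z - Tp q w z‖ ≤ (16 * ‖z‖ ^ 2 + 2 * ‖z‖) / K := by
    intro q hq1 hq hqw
    refine (Rp_sub_exp hq1 hqw hz).trans ?_
    rw [div_eq_mul_one_div _ (K : ℝ)]
    refine mul_le_mul_of_nonneg_left ?_ hA
    have h1 : 1 / (q : ℝ) ≤ 1 / K := by
      apply one_div_le_one_div_of_le hK0
      exact_mod_cast hq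
    have h2 : 0 < 1 / (w : ℝ) := by positivity
    linarith
  rcases le_or_gt K k with h | h
  · have h1 := hstep k hk h hkw
    have h2 := norm_nonneg (Tp K w z)
    linarith
  · have h1 := hstep K hK1 le_rfl hK
    have h2 : ‖Rp k w z‖ ≤ ‖Rp K w z‖ := by
      rw [Rp_split h.le hK, norm_mul]
      exact mul_le_of_le_one_left (norm_nonneg _) (norm_Rp_le hz)
    have h3 : ‖Rp K w z‖ ≤ ‖Tp K w z‖ + (16 * ‖z‖ ^ 2 + 2 * ‖z‖) / K := by
      have h4 : Rp K w z = Tp K w z + (Rp K w z - Tp K w z) := by ring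
      rw [h4]
      exact (norm_add_le _ _).trans (by linarith)
    have h5 := norm_Tp_mono (w := w) hk h.le hz
    refine (norm_sub_le _ _).trans ?_
    linarith

lemma tendsto_Tp (K : ℕ) {z : ℂ} (hz : z.re < 0) {w : ℕ → ℕ} (hw : Tendsto w atTop atTop) :
    Tendsto (fun n => ‖Tp K (w n) z‖) atTop (nhds 0) := by
  have e : ∀ l : ℝ, (2 * z * (l : ℂ)).re = 2 * z.re * l := by intro l; simp
  have h1 : (fun n => ‖Tp K (w n) z‖) = fun n =>
      Real.exp ((2 * z.re) * (Real.log (w n) - Real.log K)) := by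
    funext n
    rw [Tp, norm_exp, e]
  rw [h1]
  apply Real.tendsto_exp_atBot.comp
  apply Tendsto.const_mul_atTop_of_neg (by linarith)
  apply tendsto_atTop_add_const_right
  exact Real.tendsto_log_atTop.comp (tendsto_natCast_atTop_atTop.comp hw)

lemma tendsto_diff {z : ℂ} (hz : z.re < 0) {k w : ℕ → ℕ} (hk : ∀ n, 1 ≤ k n)
    (hkw : ∀ n, k n ≤ w n) (hw : Tendsto w atTop atTop) :
    Tendsto (fun n => Rp (k n) (w n) z - Tp (k n) (w n) z) atTop (nhds 0) := by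
  rw [Metric.tendsto_atTop]
  intro ε hε
  set A : ℝ := 16 * ‖z‖ ^ 2 + 2 * ‖z‖ with hA
  have hA0 : 0 ≤ A := by positivity
  obtain ⟨K, hK⟩ := exists_nat_gt (max 1 (A / (ε / 2)))
  have hK1 : (1:ℝ) < K := lt_of_le_of_lt (le_max_left _ _) hK
  have hK2 : A / (ε / 2) < K := lt_of_le_of_lt (le_max_right _ _) hK
  have hK3 : A / K < ε / 2 := by
    rw [div_lt_iff₀ (by linarith)]
    rw [div_lt_iff₀ (by linarith)] at hK2
    linarith
  have h1 := (tendsto_Tp K hz hw).eventually (gt_mem_nhds (show (0:ℝ) < ε / 4 by linarith))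
  obtain ⟨N, hN⟩ := ((hw.eventually_ge_atTop K).and h1).exists_forall_of_atTop
  refine ⟨N, fun n hn => ?_⟩
  obtain ⟨h2, h3⟩ := hN n hn
  rw [dist_zero_right]
  have h4 := Rp_sub_Tp (hk n) (hkw n) (by exact_mod_cast hK1.le) h2 hz.le
  calc _ ≤ 2 * ‖Tp K (w n) z‖ + A / K := h4
    _ < ε := by linarith

lemma integrable_mul_bounded {g : ℝ → ℂ} (hg : Continuous g) (hb : ∀ τ, ‖g τ‖ ≤ 1) :
    Integrable fun τ : ℝ => g τ * (BZ (zz τ) / (((0 : ℕ) : ℂ) - zz τ)) := by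
  refine (integrable_BZ_div 0).bdd_mul (c := 1) hg.aestronglyMeasurable
    (Eventually.of_forall hb)

lemma continuous_Rp (k w : ℕ) : Continuous fun τ : ℝ => Rp k w (zz τ) := by
  unfold Rp
  apply continuous_finsetProd
  intro j _
  refine (continuous_const.add continuous_zz).div (continuous_const.sub continuous_zz) ?_
  intro τ h
  apply zz_ne_nat τ j
  linear_combination -h

lemma continuous_Tp (k w : ℕ) : Continuous fun τ : ℝ => Tp k w (zz τ) := by
  unfold Tp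
  have := continuous_zz
  fun_prop

lemma theta_zero {y : ℝ} (hy0 : 0 ≤ y) (hy : y ≤ 1) : theta 0 y = ∫ s in (0:ℝ)..y, Wt s := by
  rw [intervalIntegral.integral_of_le hy0, integral_Ioc_eq_integral_Ioo, theta]
  have h1 : ∀ s ∈ Set.Ioo (0:ℝ) 1, ker 0 y s * Wt s = (Set.Iio y).indicator Wt s := by
    intro s _
    unfold ker
    by_cases h : s < y
    · rw [if_pos h, Set.indicator_of_mem (by exact h)]
      simp
    · rw [if_neg h, Set.indicator_of_notMem (by exact h)]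
      simp
  rw [setIntegral_congr_fun measurableSet_Ioo h1, setIntegral_indicator measurableSet_Iio]
  congr 2
  ext s
  simp only [Set.mem_inter_iff, Set.mem_Ioo, Set.mem_Iio]
  constructor
  · rintro ⟨⟨h1, _⟩, h3⟩
    exact ⟨h1, h3⟩
  · rintro ⟨h1, h2⟩
    exact ⟨⟨h1, by linarith⟩, h2⟩

lemma one_le_M0 : 1 ≤ M0 := by
  have h1 : ∫ s in Set.Ioo (0:ℝ) 1, (1:ℝ) ≤ M0 := by
    unfold M0
    apply setIntegral_mono_on _ integrableOn_Wt measurableSet_Ioo
    · intro s hs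
      unfold Wt
      apply Real.one_le_rpow_of_pos_of_le_one_of_nonpos
      · exact mul_pos hs.1 (by linarith [hs.2])
      · nlinarith [hs.1, hs.2]
      · norm_num
    · simp
  simpa using h1

/-- along sequences -/
lemma tendsto_seq {k w : ℕ → ℕ} (hk : ∀ n, Odd (k n)) (hw : ∀ n, Odd (w n))
    (hkw : ∀ n, k n ≤ w n) (hlim : Tendsto w atTop atTop) :
    Tendsto (fun n => (1 - S (k n) (w n)) * M0 - theta 0 (((k n : ℝ) / w n) ^ 2)) atTop
      (nhds 0) := by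
  have hk1 : ∀ n, 1 ≤ k n := fun n => (hk n).pos
  have hw1 : ∀ n, 1 ≤ w n := fun n => (hw n).pos
  have hre : ∀ τ, (zz τ).re < 0 := by intro τ; rw [zz_re]; norm_num
  have h1 : ∀ n, (((1 - S (k n) (w n)) * M0 - theta 0 (((k n : ℝ) / w n) ^ 2) : ℝ) : ℂ) =
      (1 / (2 * Real.pi) : ℝ) • ∫ τ : ℝ, (Rp (k n) (w n) (zz τ) - Tp (k n) (w n) (zz τ)) *
        (BZ (zz τ) / (((0 : ℕ) : ℂ) - zz τ)) := by
    intro n
    have hk0 : (0:ℝ) < k n := by exact_mod_cast hk1 n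
    have hw0 : (0:ℝ) < w n := by exact_mod_cast hw1 n
    rw [ofReal_sub, ← formula (hk n) (hw n), ← inversion 0 (by positivity), ← smul_sub,
      ← integral_sub]
    · congr 1
      apply integral_congr_ae
      filter_upwards with τ
      rw [← Tp_eq (hk1 n) (hw1 n)]
      ring
    · exact integrable_mul_bounded (continuous_Rp _ _) (fun τ => norm_Rp_le (hre τ).le)
    · simp only [← Tp_eq (hk1 n) (hw1 n)]
      exact integrable_mul_bounded (continuous_Tp _ _)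
        (fun τ => norm_Tp_le (hk1 n) (hkw n) (hre τ).le)
  have h2 : Tendsto (fun n => ∫ τ : ℝ, (Rp (k n) (w n) (zz τ) - Tp (k n) (w n) (zz τ)) *
        (BZ (zz τ) / (((0 : ℕ) : ℂ) - zz τ))) atTop (nhds (∫ _ : ℝ, (0 : ℂ))) := by
    refine tendsto_integral_of_dominated_convergence
      (fun τ => 2 * ‖BZ (zz τ) / (((0 : ℕ) : ℂ) - zz τ)‖) ?_ ?_ ?_ ?_
    · intro n
      apply AEStronglyMeasurable.mul
      · exact ((continuous_Rp _ _).sub (continuous_Tp _ _)).aestronglyMeasurable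
      · exact (integrable_BZ_div 0).aestronglyMeasurable
    · exact (integrable_BZ_div 0).norm.const_mul 2
    · intro n
      refine Eventually.of_forall fun τ => ?_
      rw [norm_mul]
      refine mul_le_mul_of_nonneg_right ?_ (norm_nonneg _)
      refine (norm_sub_le _ _).trans ?_
      have e1 := norm_Rp_le (k := k n) (w := w n) (hre τ).le
      have e2 := norm_Tp_le (hk1 n) (hkw n) (hre τ).le
      linarith
    · refine Eventually.of_forall fun τ => ?_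
      have := (tendsto_diff (hre τ) hk1 hkw hlim).mul_const (BZ (zz τ) / (((0 : ℕ) : ℂ) - zz τ))
      rwa [zero_mul] at this
  have h3 := h2.const_smul ((1 / (2 * Real.pi) : ℝ))
  simp only [← h1, integral_zero, smul_zero] at h3
  have h4 := (continuous_re.tendsto (0 : ℂ)).comp h3
  simp only [Function.comp_def, ofReal_re, zero_re] at h4
  exact h4

/-- Cardy's function: `∫_0^y (s(1-s))^(-2/3) ds / ∫_0^1 (s(1-s))^(-2/3) ds` -/
noncomputable def cardy (y : ℝ) : ℝ :=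
  (∫ s in (0:ℝ)..y, (s * (1 - s)) ^ (-(2/3) : ℝ)) / ∫ s in (0:ℝ)..1, (s * (1 - s)) ^ (-(2/3) : ℝ)

lemma M0_eq : M0 = ∫ s in (0:ℝ)..1, (s * (1 - s)) ^ (-(2/3) : ℝ) := by
  rw [← theta_zero_one, theta_zero zero_le_one le_rfl]
  rfl

/-- **Cardy's formula for the finite sum, uniformly in `k`.** -/
theorem tendsto_uniform (ε : ℝ) (hε : 0 < ε) : ∃ W : ℕ, ∀ k w : ℕ, Odd k → Odd w → k ≤ w →
    W ≤ w → |(1 - S k w) - cardy (((k : ℝ) / w) ^ 2)| < ε := by
  by_contra hcon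
  push Not at hcon
  choose k w hk hw hkw hW hbad using hcon
  have hlim : Tendsto w atTop atTop := tendsto_atTop_mono hW tendsto_id
  have h1 := (tendsto_seq hk hw hkw hlim).div_const M0
  rw [zero_div] at h1
  have hM := one_le_M0
  have h2 : ∀ n, ((1 - S (k n) (w n)) * M0 - theta 0 (((k n : ℝ) / w n) ^ 2)) / M0 =
      (1 - S (k n) (w n)) - cardy (((k n : ℝ) / w n) ^ 2) := by
    intro n
    have hk0 : (0:ℝ) < k n := by exact_mod_cast (hk n).pos
    have hw0 : (0:ℝ) < w n := by exact_mod_cast (hw n).pos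
    have h3 : (k n : ℝ) / w n ≤ 1 := by
      rw [div_le_one hw0]
      exact_mod_cast hkw n
    rw [cardy, ← M0_eq, theta_zero (by positivity) (pow_le_one₀ (by positivity) h3), sub_div,
      mul_div_cancel_right₀ _ (by linarith)]
    rfl
  simp only [h2] at h1
  have h4 := h1.abs
  rw [abs_zero] at h4
  have h5 := h4.eventually (gt_mem_nhds hε)
  obtain ⟨n, hn⟩ := h5.exists
  exact absurd hn (not_lt.2 (hbad n))

lemma continuousOn_cardy : ContinuousOn cardy (Set.Icc 0 1) := by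
  have h1 : IntegrableOn (fun s : ℝ => (s * (1 - s)) ^ (-(2/3) : ℝ)) (Set.Icc 0 1) := by
    rw [integrableOn_Icc_iff_integrableOn_Ioo]
    exact integrableOn_Wt
  have h2 := intervalIntegral.continuousOn_primitive_interval (μ := volume) (a := 0) (b := 1)
    (f := fun s : ℝ => (s * (1 - s)) ^ (-(2/3) : ℝ)) (by
      rw [Set.uIcc_of_le zero_le_one]
      exact h1)
  rw [Set.uIcc_of_le zero_le_one] at h2
  exact h2.div_const _

/-- **Cardy's formula for the finite sum.** -/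
theorem tendsto_cardy {ι : Type*} {l : Filter ι} {k w : ι → ℕ} (hk : ∀ i, Odd (k i))
    (hw : ∀ i, Odd (w i)) (hkw : ∀ i, k i ≤ w i) (hlim : Tendsto w l atTop) {x : ℝ}
    (hx0 : 0 ≤ x) (hx1 : x ≤ 1) (hx : Tendsto (fun i => (k i : ℝ) / w i) l (nhds x)) :
    Tendsto (fun i => 1 - S (k i) (w i)) l (nhds (cardy (x ^ 2))) := by
  have hmem : ∀ i, ((k i : ℝ) / w i) ^ 2 ∈ Set.Icc (0:ℝ) 1 := by
    intro i
    have hk0 : (0:ℝ) < k i := by exact_mod_cast (hk i).pos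
    have hw0 : (0:ℝ) < w i := by exact_mod_cast (hw i).pos
    have h3 : (k i : ℝ) / w i ≤ 1 := by
      rw [div_le_one hw0]
      exact_mod_cast hkw i
    exact ⟨by positivity, pow_le_one₀ (by positivity) h3⟩
  have h1 : Tendsto (fun i => cardy (((k i : ℝ) / w i) ^ 2)) l (nhds (cardy (x ^ 2))) := by
    have h2 : Tendsto (fun i => ((k i : ℝ) / w i) ^ 2) l (nhdsWithin (x ^ 2) (Set.Icc 0 1)) := by
      rw [tendsto_nhdsWithin_iff]
      exact ⟨hx.pow 2, Eventually.of_forall hmem⟩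
    exact (continuousOn_cardy (x ^ 2) ⟨by positivity, pow_le_one₀ hx0 hx1⟩).tendsto.comp h2
  have h2 : Tendsto (fun i => (1 - S (k i) (w i)) - cardy (((k i : ℝ) / w i) ^ 2)) l
      (nhds 0) := by
    rw [Metric.tendsto_nhds]
    intro ε hε
    obtain ⟨W, hW⟩ := tendsto_uniform ε hε
    filter_upwards [hlim.eventually_ge_atTop W] with i hi
    rw [Real.dist_eq, sub_zero]
    exact hW _ _ (hk i) (hw i) (hkw i) hi
  have h3 := h2.add h1
  simpa using h3

end Pool.Agent.H23.Cardy
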