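import Pool.Agent.H23.Cardy.Beta

/-!
# Mellin inversion for the beta distribution
-/

set_option autoImplicit false
open MeasureTheory Complex Set

namespace Pool.Agent.H23.Cardy

/-- the weight `(s(1-s))^(-2/3)` -/
noncomputable def Wt (s : ℝ) : ℝ := (s * (1 - s)) ^ (-(2/3) : ℝ)

lemma Wt_nonneg {s : ℝ} (h : s ∈ Ioo (0:ℝ) 1) : 0 ≤ Wt s :=
  Real.rpow_nonneg (mul_nonneg h.1.le (by linarith [h.2])) _

lemma measurable_Wt : Measurable Wt := by
  unfold Wt
  fun_prop

lemma beta_integrand (z : ℂ) {s : ℝ} (hs : s ∈ Ioo (0:ℝ) 1) :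
    (s : ℂ) ^ (z + 1/3 - 1) * (1 - (s : ℂ)) ^ ((1/3 : ℂ) - 1) = (s : ℂ) ^ z * (Wt s : ℂ) := by
  rw [one_sub_cpow hs.2.le]
  have h0 : (s : ℂ) ≠ 0 := ofReal_ne_zero.2 hs.1.ne'
  have h1 : (s : ℂ) ^ (z + 1/3 - 1) = (s : ℂ) ^ z * ((s ^ (-(2/3) : ℝ) : ℝ) : ℂ) := by
    rw [ofReal_cpow hs.1.le, ← cpow_add _ _ h0]
    congr 1
    push_cast
    ring
  rw [h1, mul_assoc, ← ofReal_mul, ← Real.mul_rpow hs.1.le (by linarith [hs.2])]
  rfl

lemma integrableOn_cpow_Wt {z : ℂ} (hz : -1/3 < z.re) :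
    IntegrableOn (fun s : ℝ => (s : ℂ) ^ z * (Wt s : ℂ)) (Ioo 0 1) := by
  have h1 : 0 < (z + 1/3).re := by
    have : (z + 1/3).re = z.re + 1/3 := by simp
    rw [this]; linarith
  have h := betaIntegral_convergent (u := z + 1/3) (v := 1/3) h1 (by norm_num)
  rw [intervalIntegrable_iff_integrableOn_Ioo_of_le (by norm_num)] at h
  exact h.congr_fun (fun s hs => beta_integrand z hs) measurableSet_Ioo

lemma BZ_eq {z : ℂ} : BZ z = ∫ s in Ioo (0:ℝ) 1, (s : ℂ) ^ z * (Wt s : ℂ) := by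
  rw [BZ, betaIntegral, intervalIntegral.integral_of_le (by norm_num),
    integral_Ioc_eq_integral_Ioo]
  exact setIntegral_congr_fun measurableSet_Ioo (fun s hs => beta_integrand z hs)

lemma integrableOn_Wt : IntegrableOn Wt (Ioo 0 1) := by
  have h := integrableOn_cpow_Wt (z := 0) (by norm_num)
  have h2 : IntegrableOn (fun s : ℝ => RCLike.re ((s : ℂ) ^ (0 : ℂ) * (Wt s : ℂ))) (Ioo 0 1) :=
    h.re
  refine h2.congr_fun (fun s hs => ?_) measurableSet_Ioo
  simp

lemma integrableOn_rpow_Wt {a : ℝ} (ha : -1/3 < a) :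
    IntegrableOn (fun s : ℝ => s ^ a * Wt s) (Ioo 0 1) := by
  have h := integrableOn_cpow_Wt (z := a) (by simpa using ha)
  have h2 : IntegrableOn (fun s : ℝ => ‖(s : ℂ) ^ (a : ℂ) * (Wt s : ℂ)‖) (Ioo 0 1) := h.norm
  refine h2.congr_fun (fun s hs => ?_) measurableSet_Ioo
  simp only [norm_mul, norm_real]
  rw [norm_cpow_eq_rpow_re_of_pos hs.1, Real.norm_of_nonneg (Wt_nonneg hs), ofReal_re]

/-- kernel -/
noncomputable def ker (m : ℕ) (x s : ℝ) : ℝ := if s < x then (s / x) ^ m else 0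

noncomputable def theta (m : ℕ) (x : ℝ) : ℝ := ∫ s in Ioo (0:ℝ) 1, ker m x s * Wt s

lemma measurable_ker (m : ℕ) : Measurable fun p : ℝ × ℝ => ker m p.1 p.2 := by
  unfold ker
  refine Measurable.ite (measurableSet_lt measurable_snd measurable_fst) ?_ measurable_const
  fun_prop

lemma ker_nonneg {m : ℕ} {x s : ℝ} (hs : 0 < s) : 0 ≤ ker m x s := by
  unfold ker
  split_ifs with h
  · have : 0 < x := hs.trans h
    positivity
  · exact le_rfl

lemma ker_le_one {m : ℕ} {x s : ℝ} (hs : 0 < s) : ker m x s ≤ 1 := by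
  unfold ker
  split_ifs with h
  · have hx : 0 < x := hs.trans h
    apply pow_le_one₀ (by positivity)
    rw [div_le_one hx]
    exact h.le
  · norm_num

/-- inner integral -/
lemma inner {m : ℕ} {z : ℂ} (hz : z.re < m) {s : ℝ} (hs : 0 < s) :
    IntegrableOn (fun x : ℝ => (x : ℂ) ^ (z - 1) * (ker m x s : ℂ)) (Ioi 0) ∧
    ∫ x in Ioi (0:ℝ), (x : ℂ) ^ (z - 1) * (ker m x s : ℂ) = (s : ℂ) ^ z / (m - z) := by
  have hs0 : (s : ℂ) ≠ 0 := ofReal_ne_zero.2 hs.ne'
  have hre : (z - 1 - m).re < -1 := by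
    simp
    linarith
  have h1 : ∀ x ∈ Ioi (0:ℝ), (x : ℂ) ^ (z - 1) * (ker m x s : ℂ) =
      (Ioi s).indicator (fun x : ℝ => (s : ℂ) ^ m * (x : ℂ) ^ (z - 1 - m)) x := by
    intro x hx
    have hx0 : (x : ℂ) ≠ 0 := ofReal_ne_zero.2 (ne_of_gt hx)
    unfold ker
    by_cases h : s < x
    · rw [if_pos h, indicator_of_mem (mem_Ioi.2 h)]
      have e1 : (x : ℂ) ^ (z - 1 - (m : ℂ)) = (x : ℂ) ^ (z - 1) / (x : ℂ) ^ m := by
        rw [cpow_sub (z - 1) (m : ℂ) hx0, cpow_natCast]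
      rw [e1]
      push_cast
      rw [div_pow]
      ring
    · rw [if_neg h, indicator_of_notMem (by simpa using h)]
      simp
  have hint : IntegrableOn (fun x : ℝ => (s : ℂ) ^ m * (x : ℂ) ^ (z - 1 - m)) (Ioi s) :=
    (integrableOn_Ioi_cpow_of_lt hre hs).const_mul _
  have hsub : Ioi s ∩ Ioi (0:ℝ) = Ioi s := by
    apply inter_eq_left.2
    exact Ioi_subset_Ioi hs.le
  constructor
  · have h2 : IntegrableOn ((Ioi s).indicator
        (fun x : ℝ => (s : ℂ) ^ m * (x : ℂ) ^ (z - 1 - m))) (Ioi 0) := by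
      have := (integrable_indicator_iff measurableSet_Ioi).2 hint
      exact this.integrableOn
    exact h2.congr_fun (fun x hx => (h1 x hx).symm) measurableSet_Ioi
  · rw [setIntegral_congr_fun measurableSet_Ioi h1, setIntegral_indicator measurableSet_Ioi,
      inter_comm, hsub, integral_const_mul, integral_Ioi_cpow_of_lt hre hs]
    have h3 : z - 1 - m + 1 = z - m := by ring
    rw [h3, cpow_sub _ _ hs0, cpow_natCast]
    have h4 : (s : ℂ) ^ m ≠ 0 := pow_ne_zero _ hs0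
    have h5 : (m : ℂ) - z ≠ 0 := by
      intro h
      have := congrArg re h
      simp at this
      linarith
    have h6 : z - (m : ℂ) ≠ 0 := by
      intro h
      apply h5
      linear_combination -h
    field_simp
    ring

lemma inner_norm {m : ℕ} {z : ℂ} (hz : z.re < m) {s : ℝ} (hs : 0 < s) :
    ∫ x in Ioi (0:ℝ), ‖(x : ℂ) ^ (z - 1) * (ker m x s : ℂ)‖ = s ^ z.re / (m - z.re) := by
  have h := (inner (m := m) (z := (z.re : ℂ)) (by simpa using hz) hs).2
  have h1 : ∀ x ∈ Ioi (0:ℝ), (x : ℂ) ^ ((z.re : ℂ) - 1) * (ker m x s : ℂ) =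
      ((‖(x : ℂ) ^ (z - 1) * (ker m x s : ℂ)‖ : ℝ) : ℂ) := by
    intro x hx
    rw [norm_mul, norm_cpow_eq_rpow_re_of_pos hx, norm_real,
      Real.norm_of_nonneg (ker_nonneg hs)]
    push_cast
    rw [ofReal_cpow (le_of_lt hx)]
    simp
  rw [setIntegral_congr_fun measurableSet_Ioi h1, integral_complex_ofReal] at h
  have h2 : ((s : ℂ) ^ (z.re : ℂ) / (m - (z.re : ℂ))) = ((s ^ z.re / (m - z.re) : ℝ) : ℂ) := by
    push_cast
    rw [ofReal_cpow hs.le]
  rw [h2] at h
  exact_mod_cast h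

/-- joint integrability -/
lemma joint {m : ℕ} {z : ℂ} (hz0 : -1/3 < z.re) (hz : z.re < m) :
    Integrable (fun p : ℝ × ℝ => (p.1 : ℂ) ^ (z - 1) * ((ker m p.1 p.2 * Wt p.2 : ℝ) : ℂ))
      ((volume.restrict (Ioi (0:ℝ))).prod (volume.restrict (Ioo (0:ℝ) 1))) := by
  have hmeas : AEStronglyMeasurable
      (fun p : ℝ × ℝ => (p.1 : ℂ) ^ (z - 1) * ((ker m p.1 p.2 * Wt p.2 : ℝ) : ℂ))
      ((volume.restrict (Ioi (0:ℝ))).prod (volume.restrict (Ioo (0:ℝ) 1))) := by
    apply Measurable.aestronglyMeasurable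
    have h1 := measurable_ker m
    have h2 := measurable_Wt
    fun_prop
  rw [integrable_prod_iff' hmeas]
  constructor
  · rw [ae_restrict_iff' measurableSet_Ioo]
    refine Filter.Eventually.of_forall fun s hs => ?_
    have h1 := (inner (m := m) hz hs.1).1.mul_const (Wt s : ℂ)
    refine h1.congr (Filter.Eventually.of_forall fun x => ?_)
    simp only
    push_cast
    ring
  · have h1 : IntegrableOn (fun s : ℝ => (s ^ z.re * Wt s) * (1 / (m - z.re))) (Ioo 0 1) :=
      (integrableOn_rpow_Wt hz0).mul_const _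
    refine h1.congr_fun (fun s hs => ?_) measurableSet_Ioo
    have h2 := inner_norm (m := m) hz hs.1
    have h3 : ∀ x : ℝ, ‖(x : ℂ) ^ (z - 1) * ((ker m x s * Wt s : ℝ) : ℂ)‖ =
        ‖(x : ℂ) ^ (z - 1) * (ker m x s : ℂ)‖ * Wt s := by
      intro x
      push_cast
      rw [← mul_assoc, norm_mul _ (Wt s : ℂ), norm_real, Real.norm_of_nonneg (Wt_nonneg hs)]
    simp only [h3]
    rw [integral_mul_const, h2]
    ring

lemma theta_mellin {m : ℕ} {z : ℂ} (hz0 : -1/3 < z.re) (hz : z.re < m) :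
    MellinConvergent (fun x => (theta m x : ℂ)) z ∧
    mellin (fun x => (theta m x : ℂ)) z = BZ z / (m - z) := by
  have hj := joint (m := m) hz0 hz
  have h0 : ∀ x : ℝ, (∫ s in Ioo (0:ℝ) 1, (x : ℂ) ^ (z - 1) * ((ker m x s * Wt s : ℝ) : ℂ)) =
      (x : ℂ) ^ (z - 1) • (theta m x : ℂ) := by
    intro x
    rw [integral_const_mul, integral_complex_ofReal, smul_eq_mul]
    rfl
  constructor
  · have h1 := hj.integral_prod_left
    simp only [h0] at h1
    exact h1
  · unfold mellin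
    simp only [← h0]
    rw [integral_integral_swap hj, BZ_eq]
    rw [div_eq_mul_inv, ← integral_mul_const]
    apply setIntegral_congr_fun measurableSet_Ioo
    intro s hs
    simp only
    have h2 := (inner (m := m) hz hs.1).2
    have h3 : ∀ x : ℝ, (x : ℂ) ^ (z - 1) * ((ker m x s * Wt s : ℝ) : ℂ) =
        (x : ℂ) ^ (z - 1) * (ker m x s : ℂ) * (Wt s : ℂ) := by
      intro x
      push_cast
      ring
    simp only [h3]
    rw [integral_mul_const, h2]
    ring

lemma theta_continuousAt (m : ℕ) {x : ℝ} (hx : 0 < x) :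
    ContinuousAt (fun x => (theta m x : ℂ)) x := by
  have h : ContinuousAt (theta m) x := by
    unfold theta
    refine continuousAt_of_dominated (bound := Wt) ?_ ?_ integrableOn_Wt ?_
    · refine Filter.Eventually.of_forall fun y => ?_
      apply Measurable.aestronglyMeasurable
      have h1 : Measurable fun s => ker m y s :=
        (measurable_ker m).comp (measurable_const.prodMk measurable_id)
      exact h1.mul measurable_Wt
    · refine Filter.Eventually.of_forall fun y => ?_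
      rw [ae_restrict_iff' measurableSet_Ioo]
      refine Filter.Eventually.of_forall fun s hs => ?_
      rw [norm_mul, Real.norm_of_nonneg (ker_nonneg hs.1), Real.norm_of_nonneg (Wt_nonneg hs)]
      exact mul_le_of_le_one_left (Wt_nonneg hs) (ker_le_one hs.1)
    · have hne : ∀ᵐ s : ℝ ∂(volume.restrict (Ioo (0:ℝ) 1)), s ≠ x := by
        apply ae_restrict_of_ae
        rw [ae_iff]
        simp
      filter_upwards [hne] with s hs
      apply ContinuousAt.mul _ continuousAt_const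
      rcases lt_or_gt_of_ne hs with h | h
      · have h1 : (fun y => ker m y s) =ᶠ[nhds x] fun y => (s / y) ^ m := by
          filter_upwards [lt_mem_nhds h] with y hy
          unfold ker
          rw [if_pos hy]
        refine ContinuousAt.congr ?_ h1.symm
        apply ContinuousAt.pow
        exact continuousAt_const.div continuousAt_id hx.ne'
      · have h1 : (fun y => ker m y s) =ᶠ[nhds x] fun y => 0 := by
          filter_upwards [gt_mem_nhds h] with y hy
          unfold ker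
          rw [if_neg (not_lt.2 (le_of_lt hy))]
        exact continuousAt_const.congr h1.symm
  exact continuous_ofReal.continuousAt.comp h

/-- the vertical line -/
noncomputable def zz (τ : ℝ) : ℂ := ((-1/6 : ℝ) : ℂ) + τ * I

lemma zz_re (τ : ℝ) : (zz τ).re = -1/6 := by simp [zz]
lemma zz_im (τ : ℝ) : (zz τ).im = τ := by simp [zz]

lemma sub_zz_bound (m : ℕ) (τ : ℝ) : (1 + ‖τ‖) / 12 ≤ ‖(m : ℂ) - zz τ‖ := by
  have h1 : |((m : ℂ) - zz τ).re| ≤ ‖(m : ℂ) - zz τ‖ := abs_re_le_norm _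
  have h2 : |((m : ℂ) - zz τ).im| ≤ ‖(m : ℂ) - zz τ‖ := abs_im_le_norm _
  have h3 : ((m : ℂ) - zz τ).re = m + 1/6 := by simp [zz_re]; norm_num
  have h4 : ((m : ℂ) - zz τ).im = -τ := by simp [zz_im]
  have hm : (0:ℝ) ≤ m := Nat.cast_nonneg m
  rw [h3, abs_of_nonneg (by linarith)] at h1
  rw [h4, abs_neg] at h2
  rw [Real.norm_eq_abs]
  linarith

lemma continuous_zz : Continuous zz := by unfold zz; fun_prop

/-- integrability of `‖BZ‖/(1+‖τ‖)` type functions -/
lemma integrable_BZ_div (m : ℕ) : Integrable fun τ : ℝ => BZ (zz τ) / (m - zz τ) := by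
  obtain ⟨C, hC, hb⟩ := BZ_bound
  have hint : Integrable (fun τ : ℝ => (12 * C) * (1 + ‖τ‖) ^ (-(4/3) : ℝ)) := by
    apply Integrable.const_mul
    apply integrable_one_add_norm
    simp
    norm_num
  have hne : ∀ τ, (m : ℂ) - zz τ ≠ 0 := by
    intro τ
    have h1 := sub_zz_bound m τ
    have h2 : 0 < (1 + ‖τ‖) / 12 := by positivity
    exact norm_pos_iff.1 (lt_of_lt_of_le h2 h1)
  refine hint.mono' ?_ (Filter.Eventually.of_forall fun τ => ?_)
  · apply Continuous.aestronglyMeasurable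
    exact (continuous_BZ (-1/6) (by norm_num)).div (continuous_const.sub continuous_zz) hne
  · rw [norm_div, div_le_iff₀ (norm_pos_iff.2 (hne τ))]
    have h1 := hb τ
    have h2 := sub_zz_bound m τ
    have h0 : 0 < 1 + ‖τ‖ := by positivity
    have h3 : (1 + ‖τ‖) ^ (-(1/3) : ℝ) = (1 + ‖τ‖) ^ (-(4/3) : ℝ) * (1 + ‖τ‖) := by
      rw [← Real.rpow_add_one h0.ne']
      norm_num
    have h4 : 0 ≤ (1 + ‖τ‖) ^ (-(4/3) : ℝ) := Real.rpow_nonneg h0.le _
    calc ‖BZ (zz τ)‖ ≤ C * (1 + ‖τ‖) ^ (-(1/3) : ℝ) := h1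
      _ = 12 * C * (1 + ‖τ‖) ^ (-(4/3) : ℝ) * ((1 + ‖τ‖) / 12) := by rw [h3]; ring
      _ ≤ _ := by gcongr

/-- **Mellin inversion** -/
theorem inversion (m : ℕ) {x : ℝ} (hx : 0 < x) :
    (1 / (2 * Real.pi) : ℝ) • ∫ τ : ℝ, (x : ℂ) ^ (-(zz τ)) * (BZ (zz τ) / (m - zz τ)) =
      (theta m x : ℂ) := by
  have hm : (0:ℝ) ≤ m := Nat.cast_nonneg m
  have hre : ∀ τ : ℝ, mellin (fun x => (theta m x : ℂ)) (((-1/6 : ℝ) : ℂ) + τ * I) =
      BZ (zz τ) / (m - zz τ) := by
    intro τ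
    exact (theta_mellin (m := m) (z := zz τ) (by rw [zz_re]; norm_num)
      (by rw [zz_re]; linarith)).2
  have h := mellinInv_mellin_eq (-1/6) (fun x => (theta m x : ℂ)) hx
    (theta_mellin (m := m) (z := ((-1/6 : ℝ) : ℂ)) (by simp; norm_num)
      (by simp; linarith)).1
    (by
      unfold VerticalIntegrable
      simp only [hre]
      exact integrable_BZ_div m)
    (theta_continuousAt m hx)
  rw [← h]
  unfold mellinInv
  simp only [hre, smul_eq_mul]
  rfl

end Pool.Agent.H23.Cardy
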